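import Mathlib
import Pool.Agent.Helper56.SKF.Defs2

/-!
# The reduction theorem for restricted Lie superalgebras: constituents (module SKF-L)
-/

namespace Pool.Agent.Helper28.SKF

open Module Pool.Agent.Helper56.SKW Pool.Agent.Helper56.SKW.PBW Pool.Agent.Helper56.SKU
  Pool.Agent.Helper56.SKR Pool.Agent.Helper56.SKF

universe u v w

section cons

variable {k : Type u} {L₀ L₁ : Type*} [Field k] [AddCommGroup L₀] [Module k L₀] [AddCommGroup L₁]
  [Module k L₁]

section parts

variable {g : LieSuper k L₀ L₁} {F : Type u} [Field F] [Algebra k F] {W : Type u}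
  [AddCommGroup W] [Module F W] [Module k W] [IsScalarTower k F W]

/-- The restriction of a graded representation to an invariant subspace. -/
def subG (N : GRep g (Module.End F W)) (U : Submodule F W) (hσ : ∀ v ∈ U, N.σ v ∈ U)
    (h0 : ∀ x, ∀ v ∈ U, N.ρ₀ x v ∈ U) (h1 : ∀ y, ∀ v ∈ U, N.ρ₁ y v ∈ U) :
    GRep g (Module.End F U) where
  σ := N.σ.restrict hσ
  ρ₀ :=
    { toFun := fun x => (N.ρ₀ x).restrict (h0 x)
      map_add' := fun x x' => LinearMap.ext fun v => Subtype.ext (by
        simp [LinearMap.restrict_apply])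
      map_smul' := fun c x => LinearMap.ext fun v => Subtype.ext (by
        simp [LinearMap.restrict_apply]) }
  ρ₁ :=
    { toFun := fun y => (N.ρ₁ y).restrict (h1 y)
      map_add' := fun x x' => LinearMap.ext fun v => Subtype.ext (by
        simp [LinearMap.restrict_apply])
      map_smul' := fun c x => LinearMap.ext fun v => Subtype.ext (by
        simp [LinearMap.restrict_apply]) }
  ss := LinearMap.ext fun v => Subtype.ext (by
    have h := LinearMap.congr_fun N.ss (v : W)
    simpa using h)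
  s0 x := LinearMap.ext fun v => Subtype.ext (by
    have h := LinearMap.congr_fun (N.s0 x) (v : W)
    simpa using h)
  s1 y := LinearMap.ext fun v => Subtype.ext (by
    have h := LinearMap.congr_fun (N.s1 y) (v : W)
    simpa using h)
  m00 x x' := LinearMap.ext fun v => Subtype.ext (by
    have h := LinearMap.congr_fun (N.m00 x x') (v : W)
    simpa using h)
  m01 x y := LinearMap.ext fun v => Subtype.ext (by
    have h := LinearMap.congr_fun (N.m01 x y) (v : W)
    simpa using h)
  m11 y y' := LinearMap.ext fun v => Subtype.ext (by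
    have h := LinearMap.congr_fun (N.m11 y y') (v : W)
    simpa using h)

/-- The quotient of a graded representation by an invariant subspace. -/
def quoG (N : GRep g (Module.End F W)) (U : Submodule F W) (hσ : ∀ v ∈ U, N.σ v ∈ U)
    (h0 : ∀ x, ∀ v ∈ U, N.ρ₀ x v ∈ U) (h1 : ∀ y, ∀ v ∈ U, N.ρ₁ y v ∈ U) :
    GRep g (Module.End F (W ⧸ U)) where
  σ := U.mapQ U N.σ hσ
  ρ₀ :=
    { toFun := fun x => U.mapQ U (N.ρ₀ x) (h0 x)
      map_add' := by
        intro x x'
        apply LinearMap.ext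
        intro v
        obtain ⟨v, rfl⟩ := U.mkQ_surjective v
        simp
      map_smul' := by
        intro c x
        apply LinearMap.ext
        intro v
        obtain ⟨v, rfl⟩ := U.mkQ_surjective v
        simp }
  ρ₁ :=
    { toFun := fun y => U.mapQ U (N.ρ₁ y) (h1 y)
      map_add' := by
        intro x x'
        apply LinearMap.ext
        intro v
        obtain ⟨v, rfl⟩ := U.mkQ_surjective v
        simp
      map_smul' := by
        intro c x
        apply LinearMap.ext
        intro v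
        obtain ⟨v, rfl⟩ := U.mkQ_surjective v
        simp }
  ss := by
    apply LinearMap.ext
    intro v
    obtain ⟨v, rfl⟩ := U.mkQ_surjective v
    exact congrArg U.mkQ (LinearMap.congr_fun N.ss v)
  s0 x := by
    apply LinearMap.ext
    intro v
    obtain ⟨v, rfl⟩ := U.mkQ_surjective v
    exact congrArg U.mkQ (LinearMap.congr_fun (N.s0 x) v)
  s1 y := by
    apply LinearMap.ext
    intro v
    obtain ⟨v, rfl⟩ := U.mkQ_surjective v
    exact congrArg U.mkQ (LinearMap.congr_fun (N.s1 y) v)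
  m00 x x' := by
    apply LinearMap.ext
    intro v
    obtain ⟨v, rfl⟩ := U.mkQ_surjective v
    exact congrArg U.mkQ (LinearMap.congr_fun (N.m00 x x') v)
  m01 x y := by
    apply LinearMap.ext
    intro v
    obtain ⟨v, rfl⟩ := U.mkQ_surjective v
    exact congrArg U.mkQ (LinearMap.congr_fun (N.m01 x y) v)
  m11 y y' := by
    apply LinearMap.ext
    intro v
    obtain ⟨v, rfl⟩ := U.mkQ_surjective v
    exact congrArg U.mkQ (LinearMap.congr_fun (N.m11 y y') v)

theorem subG_pow (N : GRep g (Module.End F W)) (U : Submodule F W) (hσ : ∀ v ∈ U, N.σ v ∈ U)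
    (h0 : ∀ x, ∀ v ∈ U, N.ρ₀ x v ∈ U) (h1 : ∀ y, ∀ v ∈ U, N.ρ₁ y v ∈ U) (x : L₀) (j : ℕ)
    (v : U) : ((((subG N U hσ h0 h1).ρ₀ x ^ j) v : U) : W) = (N.ρ₀ x ^ j) v := by
  induction j generalizing v with
  | zero => simp
  | succ j ih =>
    rw [pow_succ, pow_succ, Module.End.mul_apply, Module.End.mul_apply, ih]
    rfl

theorem quoG_pow (N : GRep g (Module.End F W)) (U : Submodule F W) (hσ : ∀ v ∈ U, N.σ v ∈ U)
    (h0 : ∀ x, ∀ v ∈ U, N.ρ₀ x v ∈ U) (h1 : ∀ y, ∀ v ∈ U, N.ρ₁ y v ∈ U) (x : L₀) (j : ℕ)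
    (v : W) : ((quoG N U hσ h0 h1).ρ₀ x ^ j) (U.mkQ v) = U.mkQ ((N.ρ₀ x ^ j) v) := by
  induction j generalizing v with
  | zero => simp
  | succ j ih =>
    rw [pow_succ, pow_succ, Module.End.mul_apply, Module.End.mul_apply, ← ih]
    rfl

theorem subG_chr {m : Type*} {b : m → L₀} {p : ℕ} {P : m → L₀} {ζ : m → F}
    {N : GRep g (Module.End F W)} (hN : N.Chr b p P ζ) {U : Submodule F W}
    (hσ : ∀ v ∈ U, N.σ v ∈ U) (h0 : ∀ x, ∀ v ∈ U, N.ρ₀ x v ∈ U)
    (h1 : ∀ y, ∀ v ∈ U, N.ρ₁ y v ∈ U) : (subG N U hσ h0 h1).Chr b p P ζ := by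
  intro i
  apply LinearMap.ext
  intro v
  apply Subtype.ext
  have h := LinearMap.congr_fun (hN i) (v : W)
  rw [LinearMap.sub_apply, Submodule.coe_sub, subG_pow]
  exact h

theorem quoG_chr {m : Type*} {b : m → L₀} {p : ℕ} {P : m → L₀} {ζ : m → F}
    {N : GRep g (Module.End F W)} (hN : N.Chr b p P ζ) {U : Submodule F W}
    (hσ : ∀ v ∈ U, N.σ v ∈ U) (h0 : ∀ x, ∀ v ∈ U, N.ρ₀ x v ∈ U)
    (h1 : ∀ y, ∀ v ∈ U, N.ρ₁ y v ∈ U) : (quoG N U hσ h0 h1).Chr b p P ζ := by
  intro i
  apply LinearMap.ext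
  intro v
  obtain ⟨v, rfl⟩ := U.mkQ_surjective v
  rw [LinearMap.sub_apply, quoG_pow]
  exact congrArg U.mkQ (LinearMap.congr_fun (hN i) v)

end parts

theorem exists_constituent {g : LieSuper k L₀ L₁} {m : Type*} (b : m → L₀) (p : ℕ) (P : m → L₀)
    {F : Type u} [Field F] [Algebra k F] (ζ : m → F) (D : ℕ)
    {W : Type u} [AddCommGroup W] [Module F W] [Module k W] [IsScalarTower k F W]
    [FiniteDimensional F W] (N : GRep g (Module.End F W)) (hN : N.Chr b p P ζ)
    (hD : ¬ D ∣ finrank F W) :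
    ∃ (V : Type u) (_ : AddCommGroup V) (_ : Module F V) (_ : Module k V)
      (_ : IsScalarTower k F V) (_ : FiniteDimensional F V) (M : GRep g (Module.End F V)),
      M.Irr ∧ M.Chr b p P ζ ∧ ¬ D ∣ finrank F V := by
  suffices H : ∀ n : ℕ, ∀ (W : Type u) [AddCommGroup W] [Module F W] [Module k W]
      [IsScalarTower k F W] [FiniteDimensional F W] (N : GRep g (Module.End F W)),
      N.Chr b p P ζ → ¬ D ∣ finrank F W → finrank F W = n →
      ∃ (V : Type u) (_ : AddCommGroup V) (_ : Module F V) (_ : Module k V)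
        (_ : IsScalarTower k F V) (_ : FiniteDimensional F V) (M : GRep g (Module.End F V)),
        M.Irr ∧ M.Chr b p P ζ ∧ ¬ D ∣ finrank F V from
    H _ W N hN hD rfl
  intro n
  induction n using Nat.strong_induction_on with
  | _ n ih =>
    intro W _ _ _ _ _ N hN hD hn
    by_cases hirr : N.Irr
    · exact ⟨W, _, _, _, inferInstance, inferInstance, N, hirr, hN, hD⟩
    have hW : Nontrivial W := by
      by_contra h
      rw [not_nontrivial_iff_subsingleton] at h
      exact hD (by rw [finrank_zero_of_subsingleton]; exact dvd_zero D)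
    have h2 : ∃ U : Submodule F W, (∀ v ∈ U, N.σ v ∈ U) ∧ (∀ x, ∀ v ∈ U, N.ρ₀ x v ∈ U) ∧
        (∀ y, ∀ v ∈ U, N.ρ₁ y v ∈ U) ∧ U ≠ ⊥ ∧ U ≠ ⊤ := by
      by_contra h
      push Not at h
      apply hirr
      refine ⟨hW, fun U hσ h0 h1 => ?_⟩
      by_cases hU : U = ⊥
      · exact Or.inl hU
      · exact Or.inr (h U hσ h0 h1 hU)
    obtain ⟨U, hσ, h0, h1, hb, ht⟩ := h2
    have hsum : finrank F (W ⧸ U) + finrank F U = finrank F W :=
      Submodule.finrank_quotient_add_finrank U
    have hU1 : finrank F U < n := by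
      rw [← hn]
      exact Submodule.finrank_lt ht
    have hU0 : 0 < finrank F U := by
      have : Nontrivial U := Submodule.nontrivial_iff_ne_bot.2 hb
      exact finrank_pos
    by_cases hDU : D ∣ finrank F U
    · have hDQ : ¬ D ∣ finrank F (W ⧸ U) := by
        intro h
        exact hD (by rw [← hsum]; exact dvd_add h hDU)
      exact ih (finrank F (W ⧸ U)) (by omega) (W ⧸ U) (quoG N U hσ h0 h1)
        (quoG_chr hN hσ h0 h1) hDQ rfl
    · exact ih (finrank F U) hU1 U (subG N U hσ h0 h1) (subG_chr hN hσ h0 h1) hDU rfl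

end cons

end Pool.Agent.Helper28.SKF
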